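import Pool.Agent.H243Z.BM.Defs
import Pool.Agent.H243Z.BM.Iso
import Pool.Agent.H243Z.BM.Sanity

set_option autoImplicit false

namespace Pool.Agent.Results.MP_9a581e_an.ALocalActionNotRecovered

open Pool.Agent.H243Z.BM

/-- The permutation group `F` cannot be recovered from the reduced group C*-algebra of the
non-discrete Burger-Mozes group `U(F)`, and not even from the topological group `U(F)`:
there are `d₁, d₂ ≥ 3`, `F₁ ≤ Sym(d₁)`, `F₂ ≤ Sym(d₂)` with `U(F₁)`, `U(F₂)` non-discrete and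
isomorphic as topological groups, with star-isomorphic reduced C*-algebras, and `F₁`, `F₂` not
permutation isomorphic. (Witness: a point stabiliser in `Sym(3)` and the dihedral group of order
`8` in `Sym(4)`.) -/
theorem result :
    ∃ (d₁ d₂ : ℕ) (F₁ : Subgroup (Equiv.Perm (Fin d₁))) (F₂ : Subgroup (Equiv.Perm (Fin d₂)))
      (T₁ : LegalTree d₁) (T₂ : LegalTree d₂),
      3 ≤ d₁ ∧ 3 ≤ d₂ ∧
      ¬ DiscreteTopology (T₁.BMGroup F₁) ∧ ¬ DiscreteTopology (T₂.BMGroup F₂) ∧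
      Nonempty (T₁.BMGroup F₁ ≃ₜ* T₂.BMGroup F₂) ∧
      ReducedCStarIso (T₁.BMGroup F₁) (T₂.BMGroup F₂) ∧
      ¬ PermIso F₁ F₂ :=
  ⟨3, 4, F3, F4, S3.tree, S4.tree, le_rfl, by norm_num, not_discrete3, not_discrete4,
    ⟨groupIso⟩, cstar_equiv (G₁ := S3.tree.BMGroup F3) (G₂ := S4.tree.BMGroup F4) groupIso,
    fun h => absurd h.1 (by norm_num)⟩

end Pool.Agent.Results.MP_9a581e_an.ALocalActionNotRecovered
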